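import Pool.Agent.Results.MP_709c52_lc.ExactRatio

/-!
# Online transportation: the exact deterministic ratio for every vector of capacities, and as a
function of the number of requests

`m` sites, site `j` holds `κ j` servers. We show:

* `f(m) = 2 m - 1` (full answer to Q1);
* for **every** vector `κ` of positive capacities the best possible ratio of a deterministic online
  algorithm on the instances with the capacities `κ` is exactly `2 m - 1`;
* if all the sites hold `k` servers and there are at most `n` requests, `1 ≤ n ≤ k m`, the best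
  possible ratio is exactly `2 ⌊(n - 1) / k⌋ + 1`;
* one and the same algorithm attains all these values: for all capacities `κ` and all `n`, if every
  set of sites of total capacity less than `n` has at most `t` elements (sets of total capacity
  `∑ κ` may be disregarded), then it is `(2 t + 1)`-competitive on all instances with the
  capacities `κ` and at most `n` requests.
-/

set_option autoImplicit false

open scoped BigOperators

namespace Pool.Agent.Results.MP_709c52_lc.RatioByRequests

/-! ### The online transportation problem with arbitrary capacities -/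

/-- The number of requests that the assignment `f` gives to site `j`. -/
def load {m n : ℕ} (f : Fin n → Fin m) (j : Fin m) : ℕ :=
  (Finset.univ.filter (fun i => f i = j)).card

/-- The total distance paid when request number `i` of the list `σ` is served from site
`s (f i)`. -/
noncomputable def cost {X : Type} [MetricSpace X] {m : ℕ} (s : Fin m → X) (σ : List X)
    (f : Fin σ.length → Fin m) : ℝ :=
  ∑ i : Fin σ.length, dist (s (f i)) (σ.get i)

/-- The offline optimum for the requests `σ` when site `j` holds `κ j` servers. -/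
noncomputable def opt {X : Type} [MetricSpace X] {m : ℕ} (κ : Fin m → ℕ) (s : Fin m → X)
    (σ : List X) : ℝ :=
  ⨅ f : {f : Fin σ.length → Fin m // ∀ j, load f j ≤ κ j}, cost s σ f.1

/-- A deterministic online algorithm for `m` sites.  Given the metric space, the capacities, the
sites and the list of the requests revealed so far, it names the site that serves the last
request of the list. -/
def Alg (m : ℕ) : Type 1 :=
  (X : Type) → MetricSpace X → (Fin m → ℕ) → (Fin m → X) → List X → Fin m

/-- The assignment produced by the online algorithm on `σ`: request number `i` is assigned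
knowing only the requests number `0, …, i`. -/
def assign {m : ℕ} (A : Alg m) {X : Type} [inst : MetricSpace X] (κ : Fin m → ℕ) (s : Fin m → X)
    (σ : List X) : Fin σ.length → Fin m :=
  fun i => A X inst κ s (σ.take (i + 1))

/-- `A` is `ρ`-competitive for the capacities `κ` and at most `n` requests: for all metric spaces,
sites and lists of at most `n` and at most `∑ κ` requests it uses at most `κ j` servers of each
site `j` and pays at most `ρ` times the offline optimum. -/
def IsCompetitive {m : ℕ} (A : Alg m) (κ : Fin m → ℕ) (n : ℕ) (ρ : ℝ) : Prop :=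
  ∀ (X : Type) [MetricSpace X] (s : Fin m → X) (σ : List X),
    σ.length ≤ n → σ.length ≤ ∑ j, κ j →
      (∀ j, load (assign A κ s σ) j ≤ κ j) ∧ cost s σ (assign A κ s σ) ≤ ρ * opt κ s σ

/-- `bestRatio m` is the number `f(m)` of the problem: the infimum of all `ρ` such that some
deterministic online algorithm is `ρ`-competitive on all instances with `m` sites, all of them with
the same capacity `k ≥ 1`. -/
noncomputable def bestRatio (m : ℕ) : ℝ :=
  sInf {ρ : ℝ | ∃ A : Alg m, ∀ k n : ℕ, 1 ≤ k → IsCompetitive A (fun _ => k) n ρ}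

/-! ### The upper bound -/

open ExactRatio (cnt C Mn φ0 φ1 rc ld wfa Nr)

section upper

variable {X : Type} [MetricSpace X] {m : ℕ}

theorem upper [NeZero m] (s : Fin m → X) (c : Fin m → ℕ) {n t : ℕ}
    (hF : ∀ F : Finset (Fin m), ∑ j ∈ F, c j < n → ∑ j ∈ F, c j < ∑ j, c j → F.card ≤ t)
    (σ : List X) (hn : σ.length ≤ n) (hlen : σ.length ≤ ∑ l, c l) :
    (∀ l, ld (wfa s c) σ l ≤ c l) ∧
      rc s (wfa s c) σ ≤ (2 * (t : ℝ) + 1) * Mn c (φ0 s) σ := by
  induction σ using List.reverseRecOn with
  | nil =>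
    refine ⟨fun l => by simp [ExactRatio.ld_nil], ?_⟩
    obtain ⟨h, _, hh⟩ := ExactRatio.Mn_attained c (φ0 s) ([] : List X)
      ⟨fun _ => 0, fun l => by simp [cnt]⟩
    rw [ExactRatio.rc_nil, hh]
    simp [C]
  | append_singleton τ r _ =>
    have hlt : τ.length < n ∧ τ.length < ∑ l, c l := by
      rw [List.length_append, List.length_singleton] at hlen hn
      omega
    obtain ⟨f0, hf0, hu0, -⟩ := ExactRatio.inv s c τ hlt.2.le
    obtain ⟨⟨f, hf, hu, hinv⟩, -⟩ :=
      ExactRatio.step s c τ r hlen (ExactRatio.inv s c τ hlt.2.le)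
    refine ⟨hu, ?_⟩
    have hfeas : ∀ l, cnt (τ ++ [r]).length f l ≤ c l := fun l => by rw [hf l]; exact hu l
    have hex : ∃ h : ℕ → Fin m, ∀ l, cnt (τ ++ [r]).length h l ≤ c l := ⟨f, hfeas⟩
    obtain ⟨g, hg, hgM⟩ := ExactRatio.Mn_attained c (φ0 s) (τ ++ [r]) hex
    have h0 : 0 ≤ Mn c (φ0 s) (τ ++ [r]) := by
      rw [hgM]; exact ExactRatio.C_nonneg _ (ExactRatio.φ0_nonneg s) _ _
    have h1 : Mn c (φ0 s) (τ ++ [r]) ≤ C (φ0 s) (τ ++ [r]) f := ExactRatio.Mn_le c _ _ f hfeas
    have h2 : Nr s (τ ++ [r]) ≤ Mn c (φ0 s) (τ ++ [r]) := by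
      rw [hgM]; exact ExactRatio.Nr_le s _ _
    set F := Finset.univ.filter (fun l => ld (wfa s c) τ l = c l) with hFdef
    have hsum : ∑ l ∈ F, c l ≤ τ.length := by
      rw [← ExactRatio.sum_ld (wfa s c) τ]
      calc ∑ l ∈ F, c l = ∑ l ∈ F, ld (wfa s c) τ l := by
            refine Finset.sum_congr rfl fun l hl => ?_
            rw [hFdef, Finset.mem_filter] at hl
            exact hl.2.symm
        _ ≤ ∑ l, ld (wfa s c) τ l :=
            Finset.sum_le_sum_of_subset_of_nonneg (Finset.subset_univ _) (fun _ _ _ => Nat.zero_le _)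
    have hcard : F.card ≤ t := hF F (by omega) (by omega)
    have h3 : ∑ l ∈ F, Mn c (φ1 s l) (τ ++ [r]) ≤ (F.card : ℝ) * (2 * Mn c (φ0 s) (τ ++ [r])) := by
      rw [← nsmul_eq_mul, ← Finset.sum_const]
      exact Finset.sum_le_sum (fun l _ => ExactRatio.Mn_φ1_le s c l _ hex)
    have h4 : (F.card : ℝ) ≤ t := by exact_mod_cast hcard
    have h5 : (F.card : ℝ) * (2 * Mn c (φ0 s) (τ ++ [r]))
        ≤ (t : ℝ) * (2 * Mn c (φ0 s) (τ ++ [r])) :=
      mul_le_mul_of_nonneg_right h4 (by linarith)
    linarith

lemma load_eq_cnt {n : ℕ} (h : ℕ → Fin m) (j : Fin m) :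
    load (fun i : Fin n => h i) j = cnt n h j := ExactRatio.load_eq_cnt h j

lemma opt_bddBelow (κ : Fin m → ℕ) (s : Fin m → X) (σ : List X) :
    BddBelow (Set.range
      (fun f : {f : Fin σ.length → Fin m // ∀ j, load f j ≤ κ j} => cost s σ f.1)) :=
  ⟨0, by rintro _ ⟨f, rfl⟩; exact Finset.sum_nonneg (fun _ _ => dist_nonneg)⟩

lemma opt_nonneg (κ : Fin m → ℕ) (s : Fin m → X) (σ : List X) : 0 ≤ opt κ s σ :=
  Real.iInf_nonneg (fun _ => Finset.sum_nonneg (fun _ _ => dist_nonneg))

lemma Mn_le_opt [NeZero m] (κ : Fin m → ℕ) (s : Fin m → X) (σ : List X)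
    (hex : ∃ f : Fin σ.length → Fin m, ∀ j, load f j ≤ κ j) :
    Mn κ (φ0 s) σ ≤ opt κ s σ := by
  obtain ⟨f0, hf0⟩ := hex
  have : Nonempty {f : Fin σ.length → Fin m // ∀ j, load f j ≤ κ j} := ⟨⟨f0, hf0⟩⟩
  apply le_ciInf
  rintro ⟨g, hg⟩
  obtain ⟨h, rfl⟩ := ExactRatio.exists_extension g
  change _ ≤ C (φ0 s) σ h
  apply ExactRatio.Mn_le
  intro l
  rw [← load_eq_cnt]
  exact hg l

/-- the work function algorithm in the official format -/
noncomputable def WFA (m : ℕ) [NeZero m] : Alg m :=
  fun X _ κ s => wfa (X := X) s κ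

theorem WFA_competitive [NeZero m] (κ : Fin m → ℕ) {n t : ℕ}
    (hF : ∀ F : Finset (Fin m), ∑ j ∈ F, κ j < n → ∑ j ∈ F, κ j < ∑ j, κ j → F.card ≤ t) :
    IsCompetitive (WFA m) κ n (2 * (t : ℝ) + 1) := by
  intro X inst s σ hn hlen
  obtain ⟨h1, h2⟩ := upper s κ hF σ hn hlen
  have hload : ∀ j, load (assign (WFA m) κ s σ) j ≤ κ j := by
    intro j
    have := h1 j
    unfold ld at this
    unfold load assign WFA
    rw [Finset.card_filter]
    exact this
  refine ⟨hload, ?_⟩
  have hcost : cost s σ (assign (WFA m) κ s σ) = rc s (wfa s κ) σ := rfl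
  rw [hcost]
  exact h2.trans (mul_le_mul_of_nonneg_left (Mn_le_opt κ s σ ⟨_, hload⟩) (by positivity))

end upper

/-! ### The lower bound -/

open ExactRatio (Star)

section lower

variable {m : ℕ}

/-- a block of requests at one leaf -/
lemma block (B : List (Star m) → Fin m) (σ : List (Star m)) (l : Fin m) (j : ℕ) :
    rc (Star.leaf : Fin m → Star m) B (σ ++ List.replicate j (Star.leaf l)) +
      2 * (ld B (σ ++ List.replicate j (Star.leaf l)) l : ℝ) =
    rc (Star.leaf : Fin m → Star m) B σ + 2 * (ld B σ l : ℝ) + 2 * j := by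
  induction j with
  | zero => simp
  | succ j ih =>
    rw [List.replicate_succ', ← List.append_assoc, ExactRatio.rc_append, ExactRatio.ld_append]
    set b := B (σ ++ List.replicate j (Star.leaf l) ++ [Star.leaf l]) with hb
    by_cases h : b = l
    · rw [if_pos h, h, dist_self]
      push_cast
      linarith
    · rw [if_neg h, ExactRatio.Star.dist_leaf_leaf h]
      push_cast
      linarith

/-- the assignment which serves every leaf by itself and the centre from `l0` -/
lemma exists_own (l0 : Fin m) (σ : List (Star m)) :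
    ∃ h : ℕ → Fin m,
      (∀ l, cnt σ.length h l = σ.count (Star.leaf l) + if l0 = l then σ.count Star.center else 0) ∧
      C (φ0 (Star.leaf : Fin m → Star m)) σ h = (σ.count Star.center : ℝ) := by
  induction σ using List.reverseRecOn with
  | nil => exact ⟨fun _ => l0, fun l => by simp [cnt], by simp [C]⟩
  | append_singleton τ r ih =>
    obtain ⟨h, h1, h2⟩ := ih
    cases r with
    | center =>
      refine ⟨fun i => if i = τ.length then l0 else h i, fun l => ?_, ?_⟩
      · rw [List.length_append, List.length_singleton, ExactRatio.cnt_ext, h1 l,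
          List.count_append, List.count_append]
        by_cases hl : l0 = l <;> simp [hl]
        omega
      · rw [ExactRatio.C_ext, h2, List.count_append]
        simp [φ0, ExactRatio.Star.dist_leaf_center]
    | leaf i =>
      refine ⟨fun k => if k = τ.length then i else h k, fun l => ?_, ?_⟩
      · rw [List.length_append, List.length_singleton, ExactRatio.cnt_ext, h1 l,
          List.count_append, List.count_append]
        by_cases hl : i = l
        · subst hl
          simp
          omega
        · have hl' : ¬ (Star.leaf i : Star m) = Star.leaf l := by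
            intro h'
            exact hl (by cases h'; rfl)
          simp [hl, hl']
      · rw [ExactRatio.C_ext, h2, List.count_append]
        simp [φ0]

lemma opt_le_one {κ : Fin m → ℕ} {σ : List (Star m)} (hc : σ.count Star.center = 1)
    (hl : ∀ l, σ.count (Star.leaf l) ≤ κ l) {l0 : Fin m} (h0 : σ.count (Star.leaf l0) < κ l0) :
    opt κ (Star.leaf : Fin m → Star m) σ ≤ 1 := by
  obtain ⟨h, h1, h2⟩ := exists_own l0 σ
  have hload : ∀ l, load (fun i : Fin σ.length => h i) l ≤ κ l := by
    intro l
    rw [load_eq_cnt, h1 l, hc]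
    by_cases hll : l0 = l
    · subst hll
      rw [if_pos rfl]
      omega
    · rw [if_neg hll]
      simpa using hl l
  refine (ciInf_le (opt_bddBelow κ (Star.leaf : Fin m → Star m) σ)
    ⟨fun i => h i, hload⟩).trans ?_
  change C (φ0 (Star.leaf : Fin m → Star m)) σ h ≤ 1
  rw [h2, hc]
  simp

/-- the adversary: the centre; then always fill a leaf which has been used and not been requested -/
lemma adversary {κ : Fin m → ℕ} (B : List (Star m) → Fin m) (n T : ℕ)
    (hB : ∀ σ : List (Star m), σ.length ≤ n → σ.length ≤ ∑ j, κ j → ∀ l, ld B σ l ≤ κ l)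
    (hT : ∀ S : Finset (Fin m), S.card ≤ T → 1 + ∑ j ∈ S, κ j ≤ n ∧ 1 + ∑ j ∈ S, κ j ≤ ∑ j, κ j) :
    ∀ t ≤ T, ∃ (σ : List (Star m)) (S : Finset (Fin m)), S.card = t ∧
      σ.length = 1 + ∑ j ∈ S, κ j ∧ σ.count Star.center = 1 ∧
      (∀ l, σ.count (Star.leaf l) = if l ∈ S then κ l else 0) ∧
      1 + 2 * (t : ℝ) ≤ rc (Star.leaf : Fin m → Star m) B σ := by
  intro t
  induction t with
  | zero =>
    intro _
    refine ⟨[Star.center], ∅, rfl, by simp, by simp, fun l => by simp, ?_⟩
    have h1 : ([Star.center] : List (Star m)) = [] ++ [Star.center] := rfl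
    rw [h1, ExactRatio.rc_append, ExactRatio.rc_nil, ExactRatio.Star.dist_leaf_center]
    simp
  | succ t ih =>
    intro ht
    obtain ⟨σ, S, hS, hlen, hcen, hcnt, hrc⟩ := ih (by omega)
    obtain ⟨hb1, hb2⟩ := hT S (by omega)
    have hld := hB σ (by omega) (by omega)
    -- a used leaf outside `S`
    obtain ⟨l, hlS, hl⟩ : ∃ l, l ∉ S ∧ 1 ≤ ld B σ l := by
      by_contra hcon
      push Not at hcon
      have h1 := ExactRatio.sum_ld B σ
      have h2 : ∑ l, ld B σ l = ∑ l ∈ S, ld B σ l := by
        symm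
        apply Finset.sum_subset (Finset.subset_univ S)
        intro l _ hl
        have := hcon l hl
        omega
      have h3 : ∑ l ∈ S, ld B σ l ≤ ∑ l ∈ S, κ l := Finset.sum_le_sum fun l _ => hld l
      omega
    have hS' : (insert l S).card = t + 1 := by rw [Finset.card_insert_of_notMem hlS, hS]
    obtain ⟨hb1', hb2'⟩ := hT (insert l S) (by omega)
    have hlen' : (σ ++ List.replicate (κ l) (Star.leaf l)).length =
        1 + ∑ j ∈ insert l S, κ j := by
      rw [List.length_append, List.length_replicate, hlen, Finset.sum_insert hlS]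
      ring
    refine ⟨σ ++ List.replicate (κ l) (Star.leaf l), insert l S, hS', hlen', ?_, ?_, ?_⟩
    · rw [List.count_append, hcen, List.count_replicate]
      simp
    · intro l'
      rw [List.count_append, hcnt l', List.count_replicate]
      by_cases hll : l = l'
      · subst hll
        simp [hlS]
      · have h1 : ¬ (Star.leaf l : Star m) = Star.leaf l' := by
          intro h'
          exact hll (by cases h'; rfl)
        have h2 : ¬ l' = l := fun h' => hll h'.symm
        simp [h1, h2]
    · have h1 := block B σ l (κ l)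
      have h2 := hB (σ ++ List.replicate (κ l) (Star.leaf l)) (by omega) (by omega) l
      have h3 : (ld B (σ ++ List.replicate (κ l) (Star.leaf l)) l : ℝ) ≤ κ l := by
        exact_mod_cast h2
      have h4 : (1 : ℝ) ≤ (ld B σ l : ℝ) := by exact_mod_cast hl
      push_cast
      linarith

theorem lower_bound {κ : Fin m → ℕ} (hκ : ∀ j, 1 ≤ κ j) {n T : ℕ} (hTm : T < m)
    (hT : ∀ S : Finset (Fin m), S.card ≤ T → 1 + ∑ j ∈ S, κ j ≤ n) {ρ : ℝ} (A : Alg m)
    (hA : IsCompetitive A κ n ρ) : 2 * (T : ℝ) + 1 ≤ ρ := by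
  set B : List (Star m) → Fin m := A (Star m) inferInstance κ Star.leaf with hBdef
  have hout : ∀ S : Finset (Fin m), S.card ≤ T → ∃ l, l ∉ S := by
    intro S hS
    by_contra hcon
    push Not at hcon
    have h1 : S = Finset.univ := by
      ext l
      simp [hcon l]
    rw [h1, Finset.card_univ, Fintype.card_fin] at hS
    omega
  have hB : ∀ σ : List (Star m), σ.length ≤ n → σ.length ≤ ∑ j, κ j → ∀ l, ld B σ l ≤ κ l := by
    intro σ h1 h2 l
    have := (hA (Star m) Star.leaf σ h1 h2).1 l
    unfold load assign at this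
    rw [Finset.card_filter] at this
    exact this
  have hT' : ∀ S : Finset (Fin m), S.card ≤ T →
      1 + ∑ j ∈ S, κ j ≤ n ∧ 1 + ∑ j ∈ S, κ j ≤ ∑ j, κ j := by
    intro S hS
    refine ⟨hT S hS, ?_⟩
    obtain ⟨l, hl⟩ := hout S hS
    have h1 : ∑ j ∈ insert l S, κ j ≤ ∑ j, κ j :=
      Finset.sum_le_sum_of_subset_of_nonneg (Finset.subset_univ _) (fun _ _ _ => Nat.zero_le _)
    rw [Finset.sum_insert hl] at h1
    have := hκ l
    omega
  obtain ⟨σ, S, hS, hlen, hcen, hcnt, hrc⟩ := adversary B n T hB hT' T le_rfl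
  obtain ⟨hb1, hb2⟩ := hT' S (by omega)
  obtain ⟨l0, hl0⟩ := hout S (by omega)
  have h1 := (hA (Star m) Star.leaf σ (by omega) (by omega)).2
  have h2 : cost Star.leaf σ (assign A κ Star.leaf σ) = rc (Star.leaf : Fin m → Star m) B σ := rfl
  rw [h2] at h1
  have h3 : opt κ (Star.leaf : Fin m → Star m) σ ≤ 1 := by
    refine opt_le_one hcen (fun l => ?_) (l0 := l0) ?_
    · rw [hcnt l]
      split_ifs <;> omega
    · rw [hcnt l0, if_neg hl0]
      exact hκ l0
  have h4 := opt_nonneg κ (Star.leaf : Fin m → Star m) σ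
  have h5 : (0 : ℝ) ≤ T := Nat.cast_nonneg T
  rcases le_or_gt 0 ρ with hc | hc
  · nlinarith
  · nlinarith

end lower

/-- **Q1 and more.** For `m ≥ 1` sites:
1. `f(m) = 2 m - 1`;
2. for every vector `κ` of positive capacities the least ratio of a deterministic online algorithm
   on the instances with the capacities `κ` is `2 m - 1`;
3. for sites with `k` servers each and at most `n` requests, `1 ≤ n ≤ k m`, the least ratio is
   `2 ⌊(n - 1) / k⌋ + 1`;
4. one algorithm attains all of these ratios: for all capacities `κ` and all `n`, `t` such that every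
   set `F` of sites of total capacity less than `n` and less than `∑ κ` has at most `t` elements,
   it is `(2 t + 1)`-competitive for the capacities `κ` and at most `n` requests. -/
theorem result (m : ℕ) (hm : 1 ≤ m) :
    bestRatio m = 2 * (m : ℝ) - 1 ∧
    (∀ κ : Fin m → ℕ, (∀ j, 1 ≤ κ j) →
      IsLeast {ρ : ℝ | ∃ A : Alg m, IsCompetitive A κ (∑ j, κ j) ρ} (2 * (m : ℝ) - 1)) ∧
    (∀ k n : ℕ, 1 ≤ k → 1 ≤ n → n ≤ k * m →
      IsLeast {ρ : ℝ | ∃ A : Alg m, IsCompetitive A (fun _ => k) n ρ}
        (2 * (((n - 1) / k : ℕ) : ℝ) + 1)) ∧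
    ∃ A : Alg m, ∀ (κ : Fin m → ℕ) (n t : ℕ),
      (∀ F : Finset (Fin m), ∑ j ∈ F, κ j < n → ∑ j ∈ F, κ j < ∑ j, κ j → F.card ≤ t) →
      IsCompetitive A κ n (2 * (t : ℝ) + 1) := by
  have : NeZero m := ⟨by omega⟩
  have hcast : (2 * ((m - 1 : ℕ) : ℝ) + 1) = 2 * (m : ℝ) - 1 := by
    rw [Nat.cast_sub hm]
    push_cast
    ring
  -- sets of sites which are not everything
  have hproper : ∀ (κ : Fin m → ℕ) (F : Finset (Fin m)), ∑ j ∈ F, κ j < ∑ j, κ j →
      F.card ≤ m - 1 := by
    intro κ F h
    have h1 : F ≠ Finset.univ := by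
      rintro rfl
      exact lt_irrefl _ h
    have h2 := Finset.card_lt_card (Finset.ssubset_univ_iff.2 h1)
    rw [Finset.card_univ, Fintype.card_fin] at h2
    omega
  have hvec : ∀ κ : Fin m → ℕ, (∀ j, 1 ≤ κ j) →
      IsLeast {ρ : ℝ | ∃ A : Alg m, IsCompetitive A κ (∑ j, κ j) ρ} (2 * (m : ℝ) - 1) := by
    intro κ hκ
    rw [← hcast]
    refine ⟨⟨WFA m, WFA_competitive κ fun F _ h => hproper κ F h⟩, ?_⟩
    rintro ρ ⟨A, hA⟩
    refine lower_bound hκ (T := m - 1) (by omega) (fun S hS => ?_) A hA
    have h1 : S ≠ Finset.univ := by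
      rintro rfl
      rw [Finset.card_univ, Fintype.card_fin] at hS
      omega
    obtain ⟨l, hl⟩ : ∃ l, l ∉ S := by
      by_contra hcon
      push Not at hcon
      exact h1 (Finset.eq_univ_iff_forall.2 hcon)
    have h2 : ∑ j ∈ insert l S, κ j ≤ ∑ j, κ j :=
      Finset.sum_le_sum_of_subset_of_nonneg (Finset.subset_univ _) (fun _ _ _ => Nat.zero_le _)
    rw [Finset.sum_insert hl] at h2
    have := hκ l
    omega
  refine ⟨?_, hvec, ?_, WFA m, fun κ n t hF => WFA_competitive κ hF⟩
  · have hleast : IsLeast {ρ : ℝ | ∃ A : Alg m, ∀ k n : ℕ, 1 ≤ k →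
        IsCompetitive A (fun _ => k) n ρ} (2 * (m : ℝ) - 1) := by
      refine ⟨⟨WFA m, fun k n hk => ?_⟩, ?_⟩
      · rw [← hcast]
        exact WFA_competitive _ fun F _ h => hproper _ F h
      · rintro ρ ⟨A, hA⟩
        exact (hvec (fun _ => 1) (fun _ => le_rfl)).2 ⟨A, hA 1 _ le_rfl⟩
    exact hleast.csInf_eq
  · intro k n hk hn hnm
    have hlt : (n - 1) / k < m := by
      rw [Nat.div_lt_iff_lt_mul (by omega)]
      have : m * k = k * m := mul_comm _ _
      omega
    refine ⟨⟨WFA m, WFA_competitive _ fun F h _ => ?_⟩, ?_⟩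
    · rw [Finset.sum_const, smul_eq_mul] at h
      rw [Nat.le_div_iff_mul_le (by omega)]
      omega
    · rintro ρ ⟨A, hA⟩
      refine lower_bound (fun _ => hk) hlt (fun S hS => ?_) A hA
      rw [Finset.sum_const, smul_eq_mul]
      have h1 : S.card * k ≤ (n - 1) / k * k := Nat.mul_le_mul_right k hS
      have h2 := Nat.div_mul_le_self (n - 1) k
      omega

end Pool.Agent.Results.MP_709c52_lc.RatioByRequests
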